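import Pool.Agent.Helpers.H4_Res3
import Pool.Agent.Helpers.H4_Res4

namespace Pool.Agent.Results.MP_e0d2b2_an.BestConstant

universe u

/-- `C` is admissible: for every nontrivial complex Banach space `X`, every bounded operator `T`
on `X` with spectrum in the open unit disc, and every `M` with `‖(zI - T)⁻¹‖ ≤ M` for `|z| ≥ 1`,
the series `∑_{j ≥ 1} ‖T^j‖` converges and is at most `C M (M - 1)`. -/
def Admissible (C : ℝ) : Prop :=
  0 < C ∧
  ∀ (X : Type u) [NormedAddCommGroup X] [NormedSpace ℂ X] [CompleteSpace X] [Nontrivial X]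
    (T : X →L[ℂ] X) (M : ℝ),
    spectrum ℂ T ⊆ Metric.ball 0 1 →
    (∀ z : ℂ, 1 ≤ ‖z‖ → ‖resolvent T z‖ ≤ M) →
    Summable (fun j : ℕ => ‖T ^ (j + 1)‖) ∧ ∑' j : ℕ, ‖T ^ (j + 1)‖ ≤ C * (M * (M - 1))

/-- The best constant `C*` equals `e`; it is attained. -/
theorem result : IsLeast {C : ℝ | Admissible.{u} C} (Real.exp 1) ∧
    sInf {C : ℝ | Admissible.{u} C} = Real.exp 1 := by
  have main : IsLeast {C : ℝ | Admissible.{u} C} (Real.exp 1) := by
    constructor
    · refine ⟨Real.exp_pos 1, ?_⟩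
      intro X _ _ _ _ T M hT hM
      have hb := H4Res.upper (a := fun j => ‖T ^ j‖) (M := M) (by simp)
        (fun j => norm_nonneg _) (fun j κ => H4Res.coeff_bound T hT M hM j κ)
      exact ⟨summable_of_sum_range_le (fun j => norm_nonneg _) hb,
        Real.tsum_le_of_sum_range_le (fun j => norm_nonneg _) hb⟩
    · rintro C ⟨_, hC⟩
      refine le_of_tendsto H4Res.tendsto_e (Filter.Eventually.of_forall fun N => ?_)
      obtain ⟨hs, hle⟩ := hC (H4Res.V.{u} N) (H4Res.T N) (((N : ℝ) + 2) / (N + 1))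
        (H4Res.spec N) (H4Res.res_bound N)
      have h1 : ‖H4Res.T.{u} N‖ ≤ ∑' j : ℕ, ‖H4Res.T.{u} N ^ (j + 1)‖ := by
        have := hs.le_tsum 0 (fun j _ => norm_nonneg _)
        simpa using this
      have h2 := (H4Res.norm_T.{u} N).trans (h1.trans hle)
      have h3 : C * (((N : ℝ) + 2) / (N + 1) * (((N : ℝ) + 2) / (N + 1) - 1))
          = C * (((N : ℝ) + 2) / (N + 1)) / (N + 1) := by
        have h4 : ((N : ℝ) + 2) / (N + 1) - 1 = 1 / (N + 1) := by
          field_simp; ring
        rw [h4]; ring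
      rw [h3] at h2
      have h5 : (0 : ℝ) < N + 1 := by positivity
      have h6 := (div_le_div_iff_of_pos_right h5).mp h2
      have h7 : (0 : ℝ) < ((N : ℝ) + 2) / (N + 1) := by positivity
      rw [pow_succ] at h6
      exact le_of_mul_le_mul_right h6 h7
  exact ⟨main, main.csInf_eq⟩

end Pool.Agent.Results.MP_e0d2b2_an.BestConstant
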